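import Pool.Agent.H23.BG.TargetsL
import Pool.Agent.H23.BG.TargetsW

/-!
L_L1: the complete sum modulo a prime.
-/

set_option autoImplicit false

open Finset NumberField

namespace Pool.Agent.H59.BG.L1

open Pool.Agent.H29.TC (MC LC)
open Pool.Agent.H23.BG (c4 Iso W_W4 L_PN Bd4 Ac)
open Pool.Agent.H23.LB

theorem c4_le {R : Type} [CommRing R] [Fintype R] (η : R → ℂ) (hη : MC η) (a : Fin 4 → R) :
    ‖c4 η a‖ ≤ Fintype.card R := by
  unfold c4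
  refine (norm_sum_le _ _).trans ?_
  have h : ∀ y ∈ (Finset.univ : Finset R), ‖η (y + a 0) * η (y + a 1) *
      (starRingEnd ℂ) (η (y + a 2)) * (starRingEnd ℂ) (η (y + a 3))‖ ≤ 1 := by
    intro y _
    rw [norm_mul, norm_mul, norm_mul, RCLike.norm_conj, RCLike.norm_conj]
    have h0 := hη.norm_le (y + a 0)
    have h1 := hη.norm_le (y + a 1)
    have h2 := hη.norm_le (y + a 2)
    have h3 := hη.norm_le (y + a 3)
    exact mul_le_one₀ (mul_le_one₀ (mul_le_one₀ h0 (norm_nonneg _) h1) (norm_nonneg _) h2)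
      (norm_nonneg _) h3
  refine (Finset.sum_le_sum h).trans ?_
  simp

theorem c4_iso (hW : W_W4) (R : Type) [CommRing R] [Fintype R] (hR : IsField R) (η : R → ℂ)
    (hη : MC η) (hp : ∀ w : R, w ≠ 0 → ∃ r : R, IsUnit (1 + r * w) ∧ η (1 + r * w) ≠ 1)
    (a : Fin 4 → R) (ha : Iso a) : ‖c4 η a‖ ≤ 3 * Real.sqrt (Fintype.card R) := by
  let _ := hR.toField
  let χ : MulChar R ℂ :=
    { toFun := η, map_one' := hη.one, map_mul' := hη.mul, map_nonunit' := hη.zero }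
  have hχ : χ ≠ 1 := by
    intro h
    obtain ⟨r, hr, hr'⟩ := hp 1 one_ne_zero
    apply hr'
    have h2 : χ (1 + r * 1) = 1 := by
      rw [h, MulChar.one_apply hr]
    exact h2
  exact hW R χ hχ a ha

theorem arith (A q x : ℝ) (e2 e3 e4 : ℕ) (hA : 4 ≤ A) (hq : 1 ≤ q) (hx : 0 ≤ x) (hxq : x ≤ q)
    (h : x ≤ 3 * Real.sqrt q ∨ (2 ≤ e2 + e3 + e4 ∧ 1 ≤ e2 + e3 ∧ 1 ≤ e2 + e4 ∧ 1 ≤ e3 + e4)) :
    Bd4 A q (q ^ e2) (q ^ e3) (q ^ e4) x := by
  have hq0 : 0 ≤ q := by linarith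
  have hA6 : (4 : ℝ) ^ 6 ≤ A ^ 6 := pow_le_pow_left₀ (by norm_num) hA 6
  have hA4 : (4 : ℝ) ^ 4 ≤ A ^ 4 := pow_le_pow_left₀ (by norm_num) hA 4
  have hp1 : ∀ k : ℕ, 1 ≤ q ^ k := fun k => one_le_pow₀ hq
  rcases h with h | ⟨h1, h2, h3, h4⟩
  · have hx2 : x ^ 2 ≤ 9 * q := by
      have h5 : x ^ 2 ≤ (3 * Real.sqrt q) ^ 2 := pow_le_pow_left₀ hx h 2
      rw [mul_pow, Real.sq_sqrt hq0] at h5
      linarith
    have hx6 : x ^ 6 ≤ 729 * q ^ 3 := by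
      calc x ^ 6 = (x ^ 2) ^ 3 := by ring
        _ ≤ (9 * q) ^ 3 := pow_le_pow_left₀ (by positivity) hx2 3
        _ = 729 * q ^ 3 := by ring
    have hx4 : x ^ 4 ≤ 81 * q ^ 2 := by
      calc x ^ 4 = (x ^ 2) ^ 2 := by ring
        _ ≤ (9 * q) ^ 2 := pow_le_pow_left₀ (by positivity) hx2 2
        _ = 81 * q ^ 2 := by ring
    have g6 : ∀ m : ℝ, 1 ≤ m → x ^ 6 ≤ A ^ 6 * q ^ 3 * m ^ 4 := by
      intro m hm
      have hm4 : 1 ≤ m ^ 4 := one_le_pow₀ hm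
      have hq3 : 0 ≤ q ^ 3 := by positivity
      calc x ^ 6 ≤ 729 * q ^ 3 := hx6
        _ ≤ A ^ 6 * q ^ 3 := mul_le_mul_of_nonneg_right (by linarith) hq3
        _ ≤ A ^ 6 * q ^ 3 * m ^ 4 := le_mul_of_one_le_right (by positivity) hm4
    have g4 : ∀ m : ℝ, 1 ≤ m → x ^ 4 ≤ A ^ 4 * q ^ 3 * m ^ 2 := by
      intro m hm
      have hm4 : 1 ≤ m ^ 2 := one_le_pow₀ hm
      have hq2 : 0 ≤ q ^ 2 := by positivity
      calc x ^ 4 ≤ 81 * q ^ 2 := hx4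
        _ ≤ A ^ 4 * q ^ 2 := mul_le_mul_of_nonneg_right (by linarith) hq2
        _ ≤ A ^ 4 * q ^ 3 := by
            refine mul_le_mul_of_nonneg_left ?_ (by positivity)
            exact pow_le_pow_right₀ hq (by norm_num)
        _ ≤ A ^ 4 * q ^ 3 * m ^ 2 := le_mul_of_one_le_right (by positivity) hm4
    refine ⟨hxq, g6 _ ?_, g4 _ ?_, g4 _ ?_, g4 _ ?_⟩
    · exact one_le_mul_of_one_le_of_one_le (one_le_mul_of_one_le_of_one_le (hp1 _) (hp1 _)) (hp1 _)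
    · exact one_le_mul_of_one_le_of_one_le (hp1 _) (hp1 _)
    · exact one_le_mul_of_one_le_of_one_le (hp1 _) (hp1 _)
    · exact one_le_mul_of_one_le_of_one_le (hp1 _) (hp1 _)
  · have hx6 : x ^ 6 ≤ q ^ 6 := pow_le_pow_left₀ hx hxq 6
    have hx4 : x ^ 4 ≤ q ^ 4 := pow_le_pow_left₀ hx hxq 4
    have g4 : ∀ k : ℕ, 1 ≤ k → x ^ 4 ≤ A ^ 4 * q ^ 3 * (q ^ k) ^ 2 := by
      intro k hk
      calc x ^ 4 ≤ q ^ 4 := hx4
        _ ≤ q ^ (3 + k * 2) := pow_le_pow_right₀ hq (by omega)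
        _ = q ^ 3 * (q ^ k) ^ 2 := by rw [pow_add, pow_mul]
        _ ≤ A ^ 4 * (q ^ 3 * (q ^ k) ^ 2) := le_mul_of_one_le_left (by positivity) (by linarith)
        _ = A ^ 4 * q ^ 3 * (q ^ k) ^ 2 := by ring
    refine ⟨hxq, ?_, ?_, ?_, ?_⟩
    · rw [← pow_add, ← pow_add]
      calc x ^ 6 ≤ q ^ 6 := hx6
        _ ≤ q ^ (3 + (e2 + e3 + e4) * 4) := pow_le_pow_right₀ hq (by omega)
        _ = q ^ 3 * (q ^ (e2 + e3 + e4)) ^ 4 := by rw [pow_add, pow_mul]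
        _ ≤ A ^ 6 * (q ^ 3 * (q ^ (e2 + e3 + e4)) ^ 4) :=
            le_mul_of_one_le_left (by positivity) (by linarith)
        _ = A ^ 6 * q ^ 3 * (q ^ (e2 + e3 + e4)) ^ 4 := by ring
    · rw [← pow_add]; exact g4 _ h2
    · rw [← pow_add]; exact g4 _ h3
    · rw [← pow_add]; exact g4 _ h4

theorem Ac_ge (K : Type) [Field K] [NumberField K] (n : ℕ) (P : Ideal (𝓞 K)) :
    4 ≤ Ac K n P := by
  unfold Ac
  split_ifs
  · have h : (4 : ℝ) ^ 1 ≤ 4 ^ (n + 1) := pow_le_pow_right₀ (by norm_num) (by omega)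
    linarith
  · exact le_rfl

theorem pf_L_L1 (hW : W_W4) (hPN : L_PN) : Pool.Agent.H23.BG.L_L1 := by
  intro n K _ _ hn P hPp hP _ η hη a
  obtain ⟨v, hsymm, hult, hle, hii, hmem, -, hn2, hn3, hn4⟩ := hPN K P hPp hP 1 a
  have hmax : (P ^ 1).IsMaximal := by
    rw [pow_one]
    exact hPp.isMaximal hP
  have hfield : IsField (𝓞 K ⧸ P ^ 1) := Ideal.Quotient.maximal_ideal_iff_isField_quotient _ |>.1 hmax
  have hNf : Nf K (P ^ 1) = Nf K P := by rw [pow_one]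
  have hcard : (Fintype.card (𝓞 K ⧸ P ^ 1) : ℝ) = Nf K P := by
    rw [← hNf]
    unfold Nf
    rw [Ideal.absNorm_apply, Submodule.cardQuot_apply, Nat.card_eq_fintype_card]
  have hq : 1 ≤ Nf K P := by
    unfold Nf
    have : 0 < Ideal.absNorm P := Nat.pos_of_ne_zero fun h => hP (Ideal.absNorm_eq_zero_iff.1 h)
    exact_mod_cast this
  rw [hn2, hn3, hn4, hNf]
  have hb := c4_le η hη.mc (fun i => Ideal.Quotient.mk (P ^ 1) (a i))
  rw [hcard] at hb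
  refine arith _ _ _ _ _ _ (Ac_ge K n P) hq (norm_nonneg _) hb ?_
  by_cases hI : Iso (fun i => Ideal.Quotient.mk (P ^ 1) (a i))
  · left
    have := c4_iso hW _ hfield η hη.mc hη.prim _ hI
    rwa [hcard] at this
  · right
    have hno : ∀ i, ∃ j, j ≠ i ∧ 1 ≤ v j i := by
      intro i
      unfold Iso at hI
      push Not at hI
      obtain ⟨j, hj, hji⟩ := hI i
      refine ⟨j, hj, ?_⟩
      rw [← hmem j i 1 le_rfl]
      exact Ideal.Quotient.eq.1 hji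
    have h0 : 1 ≤ v 1 0 ∨ 1 ≤ v 2 0 ∨ 1 ≤ v 3 0 := by
      obtain ⟨j, hj, h⟩ := hno 0
      fin_cases j
      · exact absurd rfl hj
      · exact Or.inl h
      · exact Or.inr (Or.inl h)
      · exact Or.inr (Or.inr h)
    have h1 : 1 ≤ v 0 1 ∨ 1 ≤ v 2 1 ∨ 1 ≤ v 3 1 := by
      obtain ⟨j, hj, h⟩ := hno 1
      fin_cases j
      · exact Or.inl h
      · exact absurd rfl hj
      · exact Or.inr (Or.inl h)
      · exact Or.inr (Or.inr h)
    have h3 : 1 ≤ v 0 3 ∨ 1 ≤ v 1 3 ∨ 1 ≤ v 2 3 := by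
      obtain ⟨j, hj, h⟩ := hno 3
      fin_cases j
      · exact Or.inl h
      · exact Or.inr (Or.inl h)
      · exact Or.inr (Or.inr h)
      · exact absurd rfl hj
    have e1 := hsymm 0 1
    have e2 := hsymm 0 3
    have e3 := hsymm 1 3
    have e4 := hsymm 2 3
    have t := hult 1 3 0
    rw [hsymm 3 0] at h0 t
    rw [hsymm 3 1] at h1
    have l1 := hle 1 0
    rw [hsymm 3 0, hsymm 3 1, hsymm 3 2]
    omega

end Pool.Agent.H59.BG.L1
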