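import Pool.Agent.H59.BG.M4a

/-!
P_M4: the average of the fourth moments.
-/

set_option autoImplicit false

open NumberField NumberField.InfinitePlace NumberField.Units
  NumberField.Units.dirichletUnitTheorem MeasureTheory Set Filter Complex
open scoped nonZeroDivisors ENNReal

namespace Pool.Agent.H59.BG.M4

open Pool.Agent.H25.HK Pool.Agent.H23.LB Pool.Agent.H23.LC Pool.Agent.H29.DW
open Pool.Agent.H28.RC (Rep ft idl)
open Pool.Agent.H29.TC (dvs cq LC Gn MC T_DF T_DV)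
open Pool.Agent.H23.BG

theorem real_ineq (A N n₂ n₃ V κ w C Z : ℝ) (hN : 1 ≤ N) (h2 : 1 ≤ n₂) (h3 : 1 ≤ n₃)
    (hV : 0 < V) (hVN : V ≤ N ^ 2) (hκ : 0 < κ) (hw : 0 ≤ w) (hC : 0 ≤ C) (hZ : 0 ≤ Z)
    (hwt : w * V ^ (-2 : ℝ) * (1 + V / n₂ + V / n₃ + V ^ 2 / (n₂ * n₃)) ≤
      4 * A * N ^ (1 / 2 : ℝ)) :
    w * (C * Z * N ^ κ * V ^ (-2 : ℝ) *
        (1 + V ^ (1 + κ) / n₂ + V ^ (1 + κ) / n₃ + V ^ 2 / (n₂ * n₃))) ≤
      C * Z * N ^ (3 * κ) * (4 * A * N ^ (1 / 2 : ℝ)) := by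
  have hN0 : 0 < N := by linarith
  have h20 : 0 < n₂ := by linarith
  have h30 : 0 < n₃ := by linarith
  have hNk : 1 ≤ N ^ (2 * κ) := Real.one_le_rpow hN (by positivity)
  have hVk : V ^ κ ≤ N ^ (2 * κ) := by
    calc V ^ κ ≤ (N ^ 2) ^ κ := Real.rpow_le_rpow hV.le hVN hκ.le
      _ = N ^ (2 * κ) := by
          rw [← Real.rpow_natCast N 2, ← Real.rpow_mul hN0.le]
          norm_num
  have hV1 : V ^ (1 + κ) ≤ N ^ (2 * κ) * V := by
    rw [Real.rpow_add hV, Real.rpow_one, mul_comm]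
    exact mul_le_mul_of_nonneg_right hVk hV.le
  have hb : 1 + V ^ (1 + κ) / n₂ + V ^ (1 + κ) / n₃ + V ^ 2 / (n₂ * n₃) ≤
      N ^ (2 * κ) * (1 + V / n₂ + V / n₃ + V ^ 2 / (n₂ * n₃)) := by
    have e1 : V ^ (1 + κ) / n₂ ≤ N ^ (2 * κ) * (V / n₂) := by
      rw [← mul_div_assoc]
      exact div_le_div_of_nonneg_right hV1 h20.le
    have e2 : V ^ (1 + κ) / n₃ ≤ N ^ (2 * κ) * (V / n₃) := by
      rw [← mul_div_assoc]
      exact div_le_div_of_nonneg_right hV1 h30.le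
    have e3 : V ^ 2 / (n₂ * n₃) ≤ N ^ (2 * κ) * (V ^ 2 / (n₂ * n₃)) :=
      le_mul_of_one_le_left (by positivity) hNk
    linarith
  have h3k : N ^ (3 * κ) = N ^ κ * N ^ (2 * κ) := by
    rw [← Real.rpow_add hN0]
    congr 1
    ring
  have hV2 : 0 ≤ V ^ (-2 : ℝ) := Real.rpow_nonneg hV.le _
  have hNκ : 0 ≤ N ^ κ := Real.rpow_nonneg hN0.le _
  have hN2κ : 0 ≤ N ^ (2 * κ) := Real.rpow_nonneg hN0.le _
  calc w * (C * Z * N ^ κ * V ^ (-2 : ℝ) *
        (1 + V ^ (1 + κ) / n₂ + V ^ (1 + κ) / n₃ + V ^ 2 / (n₂ * n₃)))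
      ≤ w * (C * Z * N ^ κ * V ^ (-2 : ℝ) *
        (N ^ (2 * κ) * (1 + V / n₂ + V / n₃ + V ^ 2 / (n₂ * n₃)))) := by
        refine mul_le_mul_of_nonneg_left ?_ hw
        exact mul_le_mul_of_nonneg_left hb (by positivity)
    _ = C * Z * N ^ (3 * κ) *
        (w * V ^ (-2 : ℝ) * (1 + V / n₂ + V / n₃ + V ^ 2 / (n₂ * n₃))) := by
        rw [h3k]
        ring
    _ ≤ _ := by
        refine mul_le_mul_of_nonneg_left hwt ?_
        have : 0 ≤ N ^ (3 * κ) := Real.rpow_nonneg hN0.le _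
        positivity

theorem Nf_ge {K : Type} [Field K] [NumberField K] (g : Ideal (𝓞 K)) (hg : g ≠ ⊥) :
    1 ≤ Nf K g := by
  unfold Nf
  have : 0 < Ideal.absNorm g := Nat.pos_of_ne_zero fun h => hg (Ideal.absNorm_eq_zero_iff.1 h)
  exact_mod_cast this

open scoped Classical in
/-- a finite sum of averages -/
theorem sum_avg {K : Type} [Field K] [NumberField K] {ι T : Type} [Fintype ι] (S : Finset T)
    (D B : ℝ) (hD : 0 ≤ D) (_hB : 0 ≤ B) (w : T → ℝ) (hw : ∀ t ∈ S, 0 ≤ w t)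
    (F : ι → T → logSpace K → ℝ) (hF : ∀ c t z, 0 ≤ F c t z) (hFm : ∀ c t, Measurable (F c t))
    (q : ι → logSpace K → ℝ) (hq : ∀ c z, q c z ≤ D * ∑ t ∈ S, w t * F c t z)
    (hb : ∀ t ∈ S, ENNReal.ofReal (w t) * ∑ c, ∫⁻ z in Fd K, ENNReal.ofReal (F c t z) ≤
      ENNReal.ofReal B) :
    ∑ c, ∫⁻ z in Fd K, ENNReal.ofReal (q c z) ≤ ENNReal.ofReal (D * (S.card * B)) := by
  calc ∑ c, ∫⁻ z in Fd K, ENNReal.ofReal (q c z)
      ≤ ∑ c, ∫⁻ z in Fd K, ∑ t ∈ S, ENNReal.ofReal D * ENNReal.ofReal (w t) *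
          ENNReal.ofReal (F c t z) := by
        refine Finset.sum_le_sum fun c _ => lintegral_mono fun z => ?_
        refine (ENNReal.ofReal_le_ofReal (hq c z)).trans ?_
        rw [ENNReal.ofReal_mul hD, ENNReal.ofReal_sum_of_nonneg
          (fun t ht => mul_nonneg (hw t ht) (hF c t z)), Finset.mul_sum]
        refine Finset.sum_le_sum fun t ht => ?_
        rw [ENNReal.ofReal_mul (hw t ht), mul_assoc]
    _ = ∑ c, ∑ t ∈ S, ENNReal.ofReal D * ENNReal.ofReal (w t) *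
          ∫⁻ z in Fd K, ENNReal.ofReal (F c t z) := by
        refine Finset.sum_congr rfl fun c _ => ?_
        rw [lintegral_finsetSum]
        · refine Finset.sum_congr rfl fun t _ => ?_
          rw [lintegral_const_mul]
          exact (hFm c t).ennreal_ofReal
        · intro t _
          exact (hFm c t).ennreal_ofReal.const_mul _
    _ = ∑ t ∈ S, ENNReal.ofReal D * (ENNReal.ofReal (w t) *
          ∑ c, ∫⁻ z in Fd K, ENNReal.ofReal (F c t z)) := by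
        rw [Finset.sum_comm]
        refine Finset.sum_congr rfl fun t _ => ?_
        rw [Finset.mul_sum, Finset.mul_sum]
        exact Finset.sum_congr rfl fun c _ => mul_assoc _ _ _
    _ ≤ ∑ t ∈ S, ENNReal.ofReal D * ENNReal.ofReal B :=
        Finset.sum_le_sum fun t ht => mul_le_mul_right (hb t ht) _
    _ = ENNReal.ofReal (D * (S.card * B)) := by
        rw [Finset.sum_const, nsmul_eq_mul, ENNReal.ofReal_mul hD,
          ENNReal.ofReal_mul (by positivity), ENNReal.ofReal_natCast]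
        ring

theorem pf_P_M4 (hT5 : P_T5) (hT6 : P_T6) (hWT : P_WT) (hC4 : L_C4) (hCB : P_CB)
    (hDF : T_DF) (hDV : T_DV) : P_M4 := by
  classical
  intro n hn κ hκ hκ1
  obtain ⟨C6, hC6, h6⟩ := hT6 n hn κ hκ hκ1
  obtain ⟨CD, hCD⟩ := hDV n (κ / 10) (by positivity)
  obtain ⟨CB, -, hB⟩ := hCB n hn
  refine ⟨4 ^ (n * (n + 1) + 1) * C6 * |CD| ^ 10, by positivity, ?_⟩
  intro K _ _ hK f hf hft χ hχ ι _ M hM X hX a τ hV1 hV2
  have hN1 : 1 ≤ Nf K f := Nf_ge f hf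
  have hmem : ∀ g, g ∈ dvs K f ↔ f ≤ g := hDF K f hf
  have hd1 : (1 : ℝ) ≤ ((dvs K f).card : ℝ) := by
    have : 0 < (dvs K f).card := Finset.card_pos.2 ⟨⊤, (hmem ⊤).2 le_top⟩
    exact_mod_cast this
  have hdD := hCD K hK f hf
  have hZ : 0 ≤ cw K * |(discr K : ℝ)| ^ ((1 + κ) / 2) := by
    unfold cw
    positivity
  have hbot : ∀ g, f ≤ g → g ≠ ⊥ := fun g hg h => hf (le_bot_iff.1 (h ▸ hg))
  generalize hd : ((dvs K f).card : ℝ) = d at hd1 hdD
  generalize hZZ : cw K * |(discr K : ℝ)| ^ ((1 + κ) / 2) = Z at hZ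
  generalize hNN : Nf K f = N at hN1 hdD hV1 hV2
  have hN0 : 0 < N := by linarith
  have hV0 : 0 < VV K ⊤ a τ := lt_of_lt_of_le (Real.rpow_pos_of_pos hN0 _) hV1
  have hA1 : 1 ≤ 4 ^ (n * (n + 1)) * d ^ 2 :=
    one_le_mul_of_one_le_of_one_le (one_le_pow₀ (by norm_num)) (one_le_pow₀ hd1)
  -- the claim for one triple
  have claim : ∀ g₂ g₃ g₄ : Ideal (𝓞 K), f ≤ g₂ → f ≤ g₃ → f ≤ g₄ →
      ENNReal.ofReal (wt (4 ^ (n * (n + 1)) * d ^ 2) N (Nf K g₂) (Nf K g₃) (Nf K g₄)) *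
      ∑ c, ∫⁻ z in Fd K, ENNReal.ofReal
      (cb K ((g₂ : FI K) * M c) (fun v => yM K (M c) τ z v + a v - 2 * Real.log 2) *
        cb K ((g₃ : FI K) * M c) (fun v => yM K (M c) τ z v + a v - 2 * Real.log 2) *
        cb K ((g₄ : FI K) * M c) (fun v => yM K (M c) τ z v + a v - 2 * Real.log 2) /
          cb K (M c) (fun v => yM K (M c) τ z v + a v) ^ 3) ≤
      ENNReal.ofReal (C6 * Z * N ^ (3 * κ) *
        (4 * (4 ^ (n * (n + 1)) * d ^ 2) * N ^ (1 / 2 : ℝ))) := by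
    intro g₂ g₃ g₄ hg2 hg3 hg4
    refine sort3 (Nf K) (fun g => f ≤ g) (fun g₂ g₃ g₄ =>
      ENNReal.ofReal (wt (4 ^ (n * (n + 1)) * d ^ 2) N (Nf K g₂) (Nf K g₃) (Nf K g₄)) *
      ∑ c, ∫⁻ z in Fd K, ENNReal.ofReal
      (cb K ((g₂ : FI K) * M c) (fun v => yM K (M c) τ z v + a v - 2 * Real.log 2) *
        cb K ((g₃ : FI K) * M c) (fun v => yM K (M c) τ z v + a v - 2 * Real.log 2) *
        cb K ((g₄ : FI K) * M c) (fun v => yM K (M c) τ z v + a v - 2 * Real.log 2) /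
          cb K (M c) (fun v => yM K (M c) τ z v + a v) ^ 3) ≤
      ENNReal.ofReal (C6 * Z * N ^ (3 * κ) *
        (4 * (4 ^ (n * (n + 1)) * d ^ 2) * N ^ (1 / 2 : ℝ)))) ?_ ?_ ?_ g₂ g₃ g₄ hg2 hg3 hg4
    · intro g₂ g₃ g₄ h
      rw [wt_swap1]
      simp only [mul_comm (cb K ((g₃ : FI K) * M _) _) (cb K ((g₂ : FI K) * M _) _)]
      exact h
    · intro g₂ g₃ g₄ h
      rw [wt_swap2]
      simp only [mul_right_comm (cb K ((g₂ : FI K) * M _) _) (cb K ((g₄ : FI K) * M _) _)]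
      exact h
    · intro g₂ g₃ g₄ hg2 hg3 hg4 h43 h32
      have hn2 := Nf_ge g₂ (hbot _ hg2)
      have hn3 := Nf_ge g₃ (hbot _ hg3)
      have hn4 := Nf_ge g₄ (hbot _ hg4)
      have hw : 0 ≤ wt (4 ^ (n * (n + 1)) * d ^ 2) N (Nf K g₂) (Nf K g₃) (Nf K g₄) :=
        wt_nonneg _ _ _ _ _ (by linarith) hN0.le (by linarith) (by linarith) (by linarith)
      have h7 := h6 K hK ι M hM f g₂ g₃ g₄ hf hg2 hg3 hg4 a τ _ rfl
      have h8 := hWT _ N (Nf K g₂) (Nf K g₃) (Nf K g₄) (VV K ⊤ a τ) hA1 hN1 hn4 h43 h32 hV1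
      refine (mul_le_mul_right h7 _).trans ?_
      rw [← ENNReal.ofReal_mul hw, hZZ, hNN]
      refine ENNReal.ofReal_le_ofReal ?_
      exact real_ineq _ N _ _ _ κ _ C6 Z hN1 hn2 hn3 hV0 hV2 hκ hw hC6 hZ h8
  have hfin : ∀ L : FI K, L ≠ 0 → ∀ y, (Bx K L y).Finite := fun L hL y => (hB K hK L y hL).1
  have h5 : ∀ c z, q4 (X c) (cg χ (M c)) (Bx K (M c) (fun v => yM K (M c) τ z v + a v)) ≤
      d ^ 5 * ∑ t ∈ dvs K f ×ˢ (dvs K f ×ˢ dvs K f),
        wt (4 ^ (n * (n + 1)) * d ^ 2) N (Nf K t.1) (Nf K t.2.1) (Nf K t.2.2) *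
        (cb K ((t.1 : FI K) * M c) (fun v => yM K (M c) τ z v + a v - 2 * Real.log 2) *
        cb K ((t.2.1 : FI K) * M c) (fun v => yM K (M c) τ z v + a v - 2 * Real.log 2) *
        cb K ((t.2.2 : FI K) * M c) (fun v => yM K (M c) τ z v + a v - 2 * Real.log 2) /
          cb K (M c) (fun v => yM K (M c) τ z v + a v) ^ 3) := by
    intro c z
    have h9 := hT5 K f hf (M c) (X c) (cg χ (M c)) (fun v => yM K (M c) τ z v + a v)
      (4 ^ (n * (n + 1)) * d ^ 2) (hM.1 c) (by linarith) (hfin _ (hM.1 c) _)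
      (fun L hL => hfin L hL _) (fun b hb => by
        have := hC4 n K hK f hf hft χ hχ (M c) (X c) (hM.1 c) (hX c) b hb
        rw [hd] at this
        exact this)
    rw [hd, hNN] at h9
    refine h9.trans (le_of_eq ?_)
    rw [Finset.sum_product]
    congr 1
    refine Finset.sum_congr rfl fun g₂ _ => ?_
    rw [Finset.sum_product]
    refine Finset.sum_congr rfl fun g₃ _ => ?_
    refine Finset.sum_congr rfl fun g₄ _ => ?_
    rw [mul_div_assoc]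
  have hcb : ∀ (L : FI K) y, 0 ≤ cb K L y := fun L y => Nat.cast_nonneg _
  have hmain := sum_avg (K := K) (ι := ι) (dvs K f ×ˢ (dvs K f ×ˢ dvs K f)) (d ^ 5)
    (C6 * Z * N ^ (3 * κ) * (4 * (4 ^ (n * (n + 1)) * d ^ 2) * N ^ (1 / 2 : ℝ)))
    (by positivity)
    (by
      have h1 : 0 ≤ N ^ (3 * κ) := Real.rpow_nonneg hN0.le _
      have h2 : 0 ≤ N ^ (1 / 2 : ℝ) := Real.rpow_nonneg hN0.le _
      positivity)
    (fun t => wt (4 ^ (n * (n + 1)) * d ^ 2) N (Nf K t.1) (Nf K t.2.1) (Nf K t.2.2))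
    (fun t ht => by
      rw [Finset.mem_product, Finset.mem_product, hmem, hmem, hmem] at ht
      have hn2 := Nf_ge t.1 (hbot _ ht.1)
      have hn3 := Nf_ge t.2.1 (hbot _ ht.2.1)
      have hn4 := Nf_ge t.2.2 (hbot _ ht.2.2)
      exact wt_nonneg _ _ _ _ _ (by linarith) hN0.le (by linarith) (by linarith) (by linarith))
    (fun c t z =>
      (cb K ((t.1 : FI K) * M c) (fun v => yM K (M c) τ z v + a v - 2 * Real.log 2) *
        cb K ((t.2.1 : FI K) * M c) (fun v => yM K (M c) τ z v + a v - 2 * Real.log 2) *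
        cb K ((t.2.2 : FI K) * M c) (fun v => yM K (M c) τ z v + a v - 2 * Real.log 2) /
          cb K (M c) (fun v => yM K (M c) τ z v + a v) ^ 3))
    (fun c t z => div_nonneg (mul_nonneg (mul_nonneg (hcb _ _) (hcb _ _)) (hcb _ _))
      (pow_nonneg (hcb _ _) 3))
    (fun c t => by
      have hm : ∀ L : FI K, Measurable (fun z : logSpace K =>
          cb K L (fun v => yM K (M c) τ z v + a v - 2 * Real.log 2)) := fun L =>
        meas_cb L _ fun v => ((meas_yM (M c) τ v).add_const _).sub_const _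
      have hm0 : Measurable (fun z : logSpace K =>
          cb K (M c) (fun v => yM K (M c) τ z v + a v)) :=
        meas_cb (M c) _ fun v => (meas_yM (M c) τ v).add_const _
      exact (((hm _).mul (hm _)).mul (hm _)).div (hm0.pow_const 3))
    (fun c z => q4 (X c) (cg χ (M c)) (Bx K (M c) (fun v => yM K (M c) τ z v + a v)))
    h5
    (fun t ht => by
      rw [Finset.mem_product, Finset.mem_product, hmem, hmem, hmem] at ht
      exact claim t.1 t.2.1 t.2.2 ht.1 ht.2.1 ht.2.2)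
  refine hmain.trans (ENNReal.ofReal_le_ofReal ?_)
  have hcard : (((dvs K f ×ˢ (dvs K f ×ˢ dvs K f)).card : ℕ) : ℝ) = d ^ 3 := by
    rw [Finset.card_product, Finset.card_product]
    push_cast
    rw [hd]
    ring
  rw [hcard]
  have hd10 : d ^ 10 ≤ |CD| ^ 10 * N ^ κ := by
    have h1 : d ≤ |CD| * N ^ (κ / 10) := hdD.trans
      (mul_le_mul_of_nonneg_right (le_abs_self _) (Real.rpow_nonneg hN0.le _))
    calc d ^ 10 ≤ (|CD| * N ^ (κ / 10)) ^ 10 := pow_le_pow_left₀ (by linarith) h1 10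
      _ = |CD| ^ 10 * N ^ κ := by
          rw [mul_pow, ← Real.rpow_natCast (N ^ (κ / 10)) 10, ← Real.rpow_mul hN0.le]
          congr 2
          push_cast
          ring
  have hexp : N ^ (1 / 2 + 4 * κ) = N ^ κ * (N ^ (3 * κ) * N ^ (1 / 2 : ℝ)) := by
    rw [← Real.rpow_add hN0, ← Real.rpow_add hN0]
    congr 1
    ring
  rw [hexp]
  have h1 : 0 ≤ N ^ (3 * κ) := Real.rpow_nonneg hN0.le _
  have h2 : 0 ≤ N ^ (1 / 2 : ℝ) := Real.rpow_nonneg hN0.le _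
  calc d ^ 5 * (d ^ 3 * (C6 * Z * N ^ (3 * κ) *
        (4 * (4 ^ (n * (n + 1)) * d ^ 2) * N ^ (1 / 2 : ℝ))))
      = (4 ^ (n * (n + 1) + 1) * C6 * Z * (N ^ (3 * κ) * N ^ (1 / 2 : ℝ))) * d ^ 10 := by
        rw [pow_succ]
        ring
    _ ≤ (4 ^ (n * (n + 1) + 1) * C6 * Z * (N ^ (3 * κ) * N ^ (1 / 2 : ℝ))) *
        (|CD| ^ 10 * N ^ κ) := mul_le_mul_of_nonneg_left hd10 (by positivity)
    _ = _ := by ring

end Pool.Agent.H59.BG.M4
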