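import Pool.Agent.H23.BG.TargetsL
import Pool.Agent.H23.BG.TargetsP

/-!
P_M4, part a: measurability of the number of points in a box and symmetry of `wt`.
-/

set_option autoImplicit false

open NumberField NumberField.InfinitePlace NumberField.Units
  NumberField.Units.dirichletUnitTheorem MeasureTheory Set Filter Complex
open scoped nonZeroDivisors ENNReal

namespace Pool.Agent.H59.BG.M4

open Pool.Agent.H25.HK Pool.Agent.H23.LB Pool.Agent.H23.LC Pool.Agent.H29.DW
open Pool.Agent.H28.RC (Rep ft idl)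
open Pool.Agent.H29.TC (dvs cq LC Gn MC)
open Pool.Agent.H23.BG

open scoped Classical in
section

variable {K : Type} [Field K] [NumberField K]

theorem countK (K : Type) [Field K] [NumberField K] : Countable K :=
  (Module.finBasis ℚ K).equivFun.toEquiv.countable_iff.2 inferInstance

theorem meas_yM (M : FI K) (τ : ℝ) (v : InfinitePlace K) :
    Measurable (fun z : logSpace K => yM K M τ z v) := by
  unfold yM yc
  by_cases h : v = w₀
  · simp only [h, dite_true]
    fun_prop
  · simp only [h, dite_false]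
    fun_prop

theorem cb_eq (L : FI K) (y : InfinitePlace K → ℝ) :
    cb K L y = (∑' x : K, (Bx K L y).indicator (fun _ => (1 : ℝ≥0∞)) x).toReal := by
  rw [← tsum_subtype, ENNReal.tsum_set_one]
  unfold cb Set.ncard
  generalize (Bx K L y).encard = e
  cases e <;> simp

theorem meas_cb (L : FI K) (y : logSpace K → InfinitePlace K → ℝ)
    (hy : ∀ v, Measurable (fun z => y z v)) : Measurable (fun z => cb K L (y z)) := by
  have := countK K
  simp only [cb_eq]
  refine Measurable.ennreal_toReal (Measurable.tsum fun x => ?_)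
  have h : (fun z => (Bx K L (y z)).indicator (fun _ => (1 : ℝ≥0∞)) x) =
      {z | x ∈ Bx K L (y z)}.indicator (fun _ => (1 : ℝ≥0∞)) := by
    funext z
    by_cases hz : x ∈ Bx K L (y z)
    · rw [Set.indicator_of_mem hz, Set.indicator_of_mem (by exact hz)]
    · rw [Set.indicator_of_notMem hz, Set.indicator_of_notMem (by exact hz)]
  rw [h]
  refine measurable_const.indicator ?_
  by_cases hx : x ∈ L
  · have h2 : {z | x ∈ Bx K L (y z)} = ⋂ v : InfinitePlace K,
        {z | v x * Real.exp (y z v / 2) ≤ 1} := by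
      ext z
      simp [Bx, hx]
    rw [h2]
    refine MeasurableSet.iInter fun v => ?_
    have hv := hy v
    exact measurableSet_le (by fun_prop) measurable_const
  · have h2 : {z | x ∈ Bx K L (y z)} = ∅ := by
      ext z
      simp [Bx, hx]
    rw [h2]
    exact MeasurableSet.empty

end

theorem wt_swap1 (A N a b c : ℝ) : wt A N a b c = wt A N b a c := by
  unfold wt
  rw [mul_comm b a]
  congr 3
  exact min_comm _ _

theorem wt_swap2 (A N a b c : ℝ) : wt A N a b c = wt A N a c b := by
  unfold wt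
  rw [mul_assoc a b c, mul_assoc a c b, mul_comm c b]
  congr 2
  exact min_left_comm _ _ _

theorem wt_nonneg (A N a b c : ℝ) (hA : 0 ≤ A) (hN : 0 ≤ N) (ha : 0 ≤ a) (hb : 0 ≤ b)
    (hc : 0 ≤ c) : 0 ≤ wt A N a b c := by
  unfold wt
  refine le_min hN (le_min ?_ (le_min ?_ (le_min ?_ ?_))) <;> positivity

/-- sorting three numbers -/
theorem sort3 {α : Type} (f : α → ℝ) (S : α → Prop) (P : α → α → α → Prop)
    (h1 : ∀ a b c, P a b c → P b a c) (h2 : ∀ a b c, P a b c → P a c b)
    (h : ∀ a b c, S a → S b → S c → f c ≤ f b → f b ≤ f a → P a b c) (a b c : α) (ha : S a)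
    (hb : S b) (hc : S c) : P a b c := by
  rcases le_total (f a) (f b) with hab | hab <;> rcases le_total (f b) (f c) with hbc | hbc <;>
    rcases le_total (f a) (f c) with hac | hac
  · -- a ≤ b ≤ c
    exact h1 _ _ _ (h2 _ _ _ (h1 _ _ _ (h c b a hc hb ha hab hbc)))
  · exact h1 _ _ _ (h2 _ _ _ (h1 _ _ _ (h c b a hc hb ha hab hbc)))
  · -- a ≤ c ≤ b
    exact h1 _ _ _ (h2 _ _ _ (h b c a hb hc ha hac hbc))
  · -- c ≤ a ≤ b
    exact h1 _ _ _ (h b a c hb ha hc hac hab)
  · -- b ≤ a ≤ c
    exact h2 _ _ _ (h1 _ _ _ (h c a b hc ha hb hab hac))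
  · -- b ≤ c ≤ a
    exact h2 _ _ _ (h a c b ha hc hb hbc hac)
  · exact h a b c ha hb hc hbc hab
  · exact h a b c ha hb hc hbc hab

end Pool.Agent.H59.BG.M4
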